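import Mathlib
import Pool.Agent.H952R3.Zeta.Bodies

set_option autoImplicit false

namespace Pool.Agent.Results.MP_86df06_gt.BodiesNotConvex

open Pool.Agent.H884R2.Zeta Pool.Agent.H952R3.Zeta

/-- For every `d ≥ 4` the set `ζ(𝒞_1^d)` of the `ζ`-vectors of the compact convex sets `K ⊂ ℝ^d`
with nonempty interior and `ζ_1(K) < ∞` is not convex. -/
theorem result : ∀ d : ℕ, 4 ≤ d → ¬ Convex ℝ (zetaBodies d) := by
  intro d hd
  obtain ⟨n, rfl⟩ := Nat.exists_eq_add_of_le' hd
  exact zetaBodies_not_convex n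

end Pool.Agent.Results.MP_86df06_gt.BodiesNotConvex
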